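import Pool.Agent.R244.CP.Final
import Pool.Agent.R244.CP.P_SD
import Pool.Agent.R244.CP.P_GRIDX
import Pool.Agent.R244.CP.P_GRIDQ
import Pool.Agent.R244.CP.P_PL
import Pool.Agent.R244.CP.P_SUBG
import Pool.Agent.R244.CP.P_NCFIN
import Pool.Agent.R244.CP.P_LIM
import Pool.Agent.R244.CP.P_KEYB
import Pool.Agent.R244.CP.P_PROX
import Pool.Agent.R244.CP.P_POLY
import Pool.Agent.R244.CP.P_PSET
import Pool.Agent.R244.CP.P_JORDAN
import Pool.Agent.R244.CP.P_APPROX
import Pool.Agent.R244.CP.P_MEAS
import Pool.Agent.R244.CP.P_ERODE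
import Pool.Agent.R244.CP.P_FRONT

/-!
MP_123306_an, Q1 and Q2 (full positive answer): every Lebesgue measurable set of finite measure in the
Euclidean plane (in particular every compact set) is mapped by a contraction, with arbitrarily small
loss of measure, onto a set that differs from a polygon by a Lebesgue null set.
-/

namespace Pool.Agent.Results.MP_123306_an.PolygonContraction

open MeasureTheory Set
open Pool.Agent.R244.CP (E2 IsPolygon)

/-- For every Lebesgue measurable `E` of finite measure and every `ε > 0` there are a contraction `f`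
on `E` and a null set `N` with `λ²(f(E)) ≥ λ²(E) - ε` and `f(E) Δ N` a polygon (a set whose boundary is
covered by finitely many segments); the second part is the case of compact `E`. -/
theorem result :
    (∀ E : Set E2, NullMeasurableSet E volume → volume E < ⊤ →
      ∀ ε : ℝ, 0 < ε → ∃ (f : E2 → E2) (N : Set E2), LipschitzOnWith 1 f E ∧ volume N = 0 ∧
        volume E ≤ volume (f '' E) + ENNReal.ofReal ε ∧ IsPolygon (symmDiff (f '' E) N)) ∧
    (∀ E : Set E2, IsCompact E →
      ∀ ε : ℝ, 0 < ε → ∃ (f : E2 → E2) (N : Set E2), LipschitzOnWith 1 f E ∧ volume N = 0 ∧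
        volume E ≤ volume (f '' E) + ENNReal.ofReal ε ∧ IsPolygon (symmDiff (f '' E) N)) := by
  open Pool.Agent.R244.CP in
  have hN : S_NCFIN := t_NCFIN t_SD t_GRIDX t_GRIDQ
  have hL : S_LIM := t_LIM hN t_SUBG t_PL
  have hK : S_KEYB := t_KEYB hN t_SUBG t_PL
  have hP : S_PROX := t_PROX t_SUBG
  have hPo : S_POLY := t_POLY hP t_PL
  have hMain : S_MAIN := t_MAIN hL hK hP hPo t_PSET t_JORDAN t_APPROX t_MEAS t_ERODE
    (t_FRONT t_MEAS)
  exact ⟨hMain, fun E hE => hMain E hE.measurableSet.nullMeasurableSet hE.measure_lt_top⟩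

end Pool.Agent.Results.MP_123306_an.PolygonContraction
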